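import Pool.Agent.X255.GB.Dat
import Pool.Agent.Y890.MV.TorExc

/-!
# The coordinate ring of the base and the field generated by the functions
-/

set_option autoImplicit false
set_option linter.unusedSectionVars false

open Polynomial Filter Topology

namespace Pool.Agent.X255.GB

open Pool.Agent.Y890.MV

variable {X Y σ : Type} [Fintype X] {U : Set (X → ℂ)} {y : Y → (X → ℂ) → ℂ} {f : σ → (X → ℂ) → ℂ}

/-- the functions `y j` are algebraic over `ℂ(x)` -/
def AlgY (U : Set (X → ℂ)) (y : Y → (X → ℂ) → ℂ) : Prop :=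
  ∀ j, ∃ R : (MvPolynomial X ℂ)[X], R ≠ 0 ∧ ∀ x ∈ U, (R.map (MvPolynomial.eval x)).eval (y j x) = 0

/-- `ℂ(x, y)` is algebraically closed in the field generated by the functions `x`, `y` and `f` on `U`: if on
some nonempty open set `V ⊆ U` an analytic function `g` is a quotient of polynomials in `x`, `y` and `f`, and is
algebraic over `ℂ(x)`, then it is a quotient of polynomials in `x` and `y` -/
def RegularY (U : Set (X → ℂ)) (y : Y → (X → ℂ) → ℂ) (f : σ → (X → ℂ) → ℂ) : Prop :=
  ∀ (V : Set (X → ℂ)) (g : (X → ℂ) → ℂ) (P Q : MvPolynomial (σ ⊕ Y) (MvPolynomial X ℂ)) (R : (MvPolynomial X ℂ)[X]),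
    IsOpen V → V.Nonempty → V ⊆ U → AnalyticOnNhd ℂ g V → R ≠ 0 → (∀ x ∈ V, evM (Sum.elim f y) x Q ≠ 0) →
    (∀ x ∈ V, evM (Sum.elim f y) x Q * g x = evM (Sum.elim f y) x P) →
    (∀ x ∈ V, (R.map (MvPolynomial.eval x)).eval (g x) = 0) →
    ∃ p q : MvPolynomial Y (MvPolynomial X ℂ), (∃ x ∈ U, evM y x q ≠ 0) ∧ ∀ x ∈ V, evM y x q * g x = evM y x p

theorem evM_rename {τ υ : Type} (g : τ → (X → ℂ) → ℂ) (e : υ → τ) (x : X → ℂ) (p : MvPolynomial υ (MvPolynomial X ℂ)) :
    evM g x (MvPolynomial.rename e p) = evM (fun i => g (e i)) x p := by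
  unfold evM
  rw [MvPolynomial.eval₂_rename]
  rfl

/-- the coordinate ring, the field of the functions, and their values -/
theorem exists_model (hU : IsPreconnected U) (hUo : IsOpen U) (hne : U.Nonempty)
    (hy : ∀ j, AnalyticOnNhd ℂ (y j) U) (hf : ∀ i, AnalyticOnNhd ℂ (f i) U) (halg : AlgY U y)
    (hreg : RegularY U y f) :
    ∃ (A : Type) (_ : CommRing A) (_ : IsDomain A) (_ : CharZero A) (L : Type) (_ : Field L) (_ : Algebra A L)
      (_ : FaithfulSMul A L) (F : σ → L) (π : MvPolynomial (Y ⊕ X) ℂ →+* A) (ph : ∀ x ∈ U, A →+* ℂ),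
      Function.Surjective π ∧
      (∀ x (hx : x ∈ U) (p : MvPolynomial (Y ⊕ X) ℂ),
        ph x hx (π p) = MvPolynomial.eval (Sum.elim (fun j => y j x) x) p) ∧
      (∀ p : MvPolynomial σ A, MvPolynomial.aeval F p = 0 ↔
        ∀ x (hx : x ∈ U), MvPolynomial.eval₂ (ph x hx) (fun i => f i x) p = 0) ∧
      (∀ l : L, ∃ p q : MvPolynomial σ A, MvPolynomial.aeval F q ≠ 0 ∧
        MvPolynomial.aeval F q * l = MvPolynomial.aeval F p) ∧
      (∀ a : L, IsAlgebraic A a → ∃ p q : A, q ≠ 0 ∧ algebraMap A L q * a = algebraMap A L p) ∧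
      (∀ a : A, a ≠ 0 → ∃ q : MvPolynomial X ℂ, q ≠ 0 ∧ ∀ x (hx : x ∈ U), ph x hx a = 0 →
        MvPolynomial.eval x q = 0) ∧
      (∀ (I : Type) (ι : I → σ), AlgebraicIndependent A (F ∘ ι) → ∀ t0 ∈ U, LocIndM (fun i t => f (ι i) t) t0) := by
  classical
  have hfy : ∀ i, AnalyticOnNhd ℂ (Sum.elim f y i) U := by
    rintro (i | j)
    · exact hf i
    · exact hy j
  obtain ⟨L, _, _, _, F', hz', hfrac'⟩ := exists_fieldM (f := Sum.elim f y) hU hUo hne hfy
  let B0 : Type := MvPolynomial Y (MvPolynomial X ℂ)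
  let A : Type := B0 ⧸ relM U y
  have hprime : (relM U y).IsPrime := relM_prime hU hUo hne hy
  let iA : CommRing A := Ideal.Quotient.commRing (relM U y)
  have hdom : IsDomain A := Ideal.Quotient.isDomain (relM U y)
  let mk : B0 →+* A := Ideal.Quotient.mk (relM U y)
  have hmk : Function.Surjective mk := Ideal.Quotient.mk_surjective
  have hyz : ∀ p : B0, MvPolynomial.aeval (fun j => F' (Sum.inr j)) p = 0 ↔ ∀ x ∈ U, evM y x p = 0 := by
    intro p
    have h1 := hz' (MvPolynomial.rename Sum.inr p)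
    rw [MvPolynomial.aeval_rename] at h1
    have h2 : (F' ∘ Sum.inr) = fun j => F' (Sum.inr j) := rfl
    rw [h2] at h1
    rw [h1]
    refine forall₂_congr fun x _ => ?_
    rw [evM_rename]
    rfl
  let e0 : B0 →+* L := (MvPolynomial.aeval (fun j => F' (Sum.inr j)) : B0 →ₐ[MvPolynomial X ℂ] L).toRingHom
  let jA : A →+* L := Ideal.Quotient.lift (relM U y) e0 (fun a ha => (hyz a).2 ha)
  have hjmk : ∀ p, jA (mk p) = MvPolynomial.aeval (fun j => F' (Sum.inr j)) p := fun p => rfl
  have hjinj : Function.Injective jA := by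
    rw [injective_iff_map_eq_zero]
    intro a ha
    obtain ⟨p, rfl⟩ := hmk a
    rw [hjmk, hyz] at ha
    exact Ideal.Quotient.eq_zero_iff_mem.2 ha
  let algA : Algebra A L := jA.toAlgebra
  have hmapA : ∀ a : A, algebraMap A L a = jA a := fun a => rfl
  have hfaith : FaithfulSMul A L := (faithfulSMul_iff_algebraMap_injective A L).2 hjinj
  let ph : ∀ x ∈ U, A →+* ℂ := fun x hx =>
    Ideal.Quotient.lift (relM U y) (MvPolynomial.eval₂Hom (MvPolynomial.eval x) fun j => y j x)
      (fun a ha => ha x hx)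
  have hph : ∀ x (hx : x ∈ U) p, ph x hx (mk p) = evM y x p := fun x hx p => rfl
  let s1 := MvPolynomial.sumAlgEquiv (MvPolynomial X ℂ) σ Y
  let hat : MvPolynomial (σ ⊕ Y) (MvPolynomial X ℂ) →+* MvPolynomial σ A :=
    (MvPolynomial.map mk).comp (s1 : _ →+* MvPolynomial σ B0)
  have hhat : Function.Surjective hat := (MvPolynomial.map_surjective _ hmk).comp s1.surjective
  have hatC : ∀ a, hat (MvPolynomial.C a) = MvPolynomial.C (mk (MvPolynomial.C a)) := by
    intro a
    change MvPolynomial.map mk (s1 (MvPolynomial.C a)) = _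
    simp [s1]
  have hatl : ∀ i, hat (MvPolynomial.X (Sum.inl i)) = MvPolynomial.X i := by
    intro i
    change MvPolynomial.map mk (s1 (MvPolynomial.X (Sum.inl i))) = _
    simp [s1]
  have hatr : ∀ j, hat (MvPolynomial.X (Sum.inr j)) = MvPolynomial.C (mk (MvPolynomial.X j)) := by
    intro i
    change MvPolynomial.map mk (s1 (MvPolynomial.X (Sum.inr i))) = _
    simp [s1]
  have hev1 : ∀ P, MvPolynomial.aeval (fun i => F' (Sum.inl i)) (hat P) = MvPolynomial.aeval F' P := by
    intro P
    have h1 : ((MvPolynomial.aeval (fun i => F' (Sum.inl i)) : MvPolynomial σ A →ₐ[A] L).toRingHom).comp hat =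
        (MvPolynomial.aeval F' : MvPolynomial (σ ⊕ Y) (MvPolynomial X ℂ) →ₐ[MvPolynomial X ℂ] L).toRingHom := by
      refine MvPolynomial.ringHom_ext ?_ ?_
      · intro a
        change MvPolynomial.aeval (fun i => F' (Sum.inl i)) (hat (MvPolynomial.C a)) = MvPolynomial.aeval F' (MvPolynomial.C a)
        rw [hatC, MvPolynomial.aeval_C, MvPolynomial.aeval_C, hmapA, hjmk, MvPolynomial.aeval_C]
      · intro o
        change MvPolynomial.aeval (fun i => F' (Sum.inl i)) (hat (MvPolynomial.X o)) = MvPolynomial.aeval F' (MvPolynomial.X o)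
        rcases o with i | j
        · rw [hatl, MvPolynomial.aeval_X, MvPolynomial.aeval_X]
        · rw [hatr, MvPolynomial.aeval_C, MvPolynomial.aeval_X, hmapA, hjmk, MvPolynomial.aeval_X]
    exact RingHom.congr_fun h1 P
  have hev2 : ∀ x (hx : x ∈ U) P, MvPolynomial.eval₂ (ph x hx) (fun i => f i x) (hat P) = evM (Sum.elim f y) x P := by
    intro x hx P
    have h1 : (MvPolynomial.eval₂Hom (ph x hx) (fun i => f i x)).comp hat =
        MvPolynomial.eval₂Hom (MvPolynomial.eval x) (fun i => Sum.elim f y i x) := by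
      refine MvPolynomial.ringHom_ext ?_ ?_
      · intro a
        rw [RingHom.comp_apply, hatC, MvPolynomial.eval₂Hom_C, MvPolynomial.eval₂Hom_C, hph x hx, evM_C]
      · intro o
        rw [RingHom.comp_apply]
        rcases o with i | j
        · rw [hatl, MvPolynomial.eval₂Hom_X', MvPolynomial.eval₂Hom_X']
          rfl
        · rw [hatr, MvPolynomial.eval₂Hom_C, MvPolynomial.eval₂Hom_X', hph x hx, evM_X]
          rfl
    exact RingHom.congr_fun h1 P
  have hz : ∀ p : MvPolynomial σ A, MvPolynomial.aeval (fun i => F' (Sum.inl i)) p = 0 ↔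
      ∀ x (hx : x ∈ U), MvPolynomial.eval₂ (ph x hx) (fun i => f i x) p = 0 := by
    intro p
    obtain ⟨P, rfl⟩ := hhat p
    rw [hev1, hz']
    exact forall₂_congr fun x hx => by rw [hev2 x hx]
  -- the tower
  let algXA : Algebra (MvPolynomial X ℂ) A := Ideal.Quotient.algebra (MvPolynomial X ℂ)
  have htow : IsScalarTower (MvPolynomial X ℂ) A L := IsScalarTower.of_algebraMap_eq fun a => by
    change _ = jA (mk (MvPolynomial.C a))
    rw [hjmk, MvPolynomial.aeval_C]
  have hXA : Function.Injective (algebraMap (MvPolynomial X ℂ) A) := by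
    have h1 : Function.Injective (algebraMap (MvPolynomial X ℂ) L) := FaithfulSMul.algebraMap_injective _ _
    rw [IsScalarTower.algebraMap_eq (MvPolynomial X ℂ) A L, RingHom.coe_comp] at h1
    exact Function.Injective.of_comp h1
  have hfXA : FaithfulSMul (MvPolynomial X ℂ) A := (faithfulSMul_iff_algebraMap_injective _ _).2 hXA
  have hchar : CharZero A := charZero_of_injective_algebraMap hXA
  -- `A` is algebraic over `ℂ[x]`
  have halgY : ∀ j, IsAlgebraic (MvPolynomial X ℂ) (mk (MvPolynomial.X j)) := by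
    intro j
    obtain ⟨R, hR, hRy⟩ := halg j
    refine ⟨R, hR, ?_⟩
    have h1 : aeval (mk (MvPolynomial.X j)) R = mk (R.eval₂ MvPolynomial.C (MvPolynomial.X j)) := by
      rw [hom_eval₂]
      rfl
    rw [h1]
    refine Ideal.Quotient.eq_zero_iff_mem.2 ?_
    intro x hx
    have h2 : evM y x (R.eval₂ MvPolynomial.C (MvPolynomial.X j)) = (R.map (MvPolynomial.eval x)).eval (y j x) := by
      have h3 := hom_eval₂ R (MvPolynomial.C : MvPolynomial X ℂ →+* B0)
        (MvPolynomial.eval₂Hom (MvPolynomial.eval x) fun j => y j x) (MvPolynomial.X j)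
      have h4 : evM y x (R.eval₂ MvPolynomial.C (MvPolynomial.X j)) =
        MvPolynomial.eval₂Hom (MvPolynomial.eval x) (fun j => y j x) (R.eval₂ MvPolynomial.C (MvPolynomial.X j)) := rfl
      rw [h4, h3, eval_map, MvPolynomial.eval₂Hom_X']
      congr 1
      ext a <;> simp
    rw [h2]
    exact hRy x hx
  have halgA : Algebra.IsAlgebraic (MvPolynomial X ℂ) A := by
    refine ⟨fun a => ?_⟩
    obtain ⟨p, rfl⟩ := hmk a
    induction p using MvPolynomial.induction_on with
    | C a => exact isAlgebraic_algebraMap (R := MvPolynomial X ℂ) (A := A) a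
    | add p q hp hq => rw [map_add]; exact hp.add hq
    | mul_X p i hp => rw [map_mul]; exact hp.mul (halgY i)
  refine ⟨A, iA, hdom, hchar, L, inferInstance, algA, hfaith, fun i => F' (Sum.inl i),
    mk.comp ((MvPolynomial.sumAlgEquiv ℂ Y X : _ ≃ₐ[ℂ] _) : _ →+* B0), ph, ?_, ?_, hz, ?_, ?_, ?_, ?_⟩
  · exact hmk.comp (MvPolynomial.sumAlgEquiv ℂ Y X).surjective
  · intro x hx p
    change ph x hx (mk (MvPolynomial.sumAlgEquiv ℂ Y X p)) = _
    rw [hph x hx]
    have h1 := ev_sum (f := y) (σ := Y) (I := Y) id p x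
    rw [MvPolynomial.rename_id] at h1
    exact h1
  · intro l
    obtain ⟨p, q, h1, h2⟩ := hfrac' l
    exact ⟨hat p, hat q, by rw [hev1]; exact h1, by rw [hev1, hev1]; exact h2⟩
  · -- regularity
    intro a ha
    have ha' : IsAlgebraic (MvPolynomial X ℂ) a := ha.restrictScalars (MvPolynomial X ℂ)
    obtain ⟨P, Q, hQ, hPQ⟩ := hfrac' a
    obtain ⟨R, hR, hRa⟩ := ha'
    set V : Set (X → ℂ) := {x | x ∈ U ∧ evM (Sum.elim f y) x Q ≠ 0} with hV
    have hVo : IsOpen V := isOpen_neM hUo hfy Q
    have hVne : V.Nonempty := by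
      by_contra hcon
      apply hQ
      rw [hz']
      intro x hx
      by_contra hne
      exact hcon ⟨x, hx, hne⟩
    let g : (X → ℂ) → ℂ := fun x => evM (Sum.elim f y) x P / evM (Sum.elim f y) x Q
    have hg : AnalyticOnNhd ℂ g V := fun x hx => (evM_an hfy P x hx.1).div (evM_an hfy Q x hx.1) hx.2
    set n := R.natDegree with hn
    let W : MvPolynomial (σ ⊕ Y) (MvPolynomial X ℂ) :=
      ∑ i ∈ Finset.range (n + 1), MvPolynomial.C (R.coeff i) * P ^ i * Q ^ (n - i)
    have hW : MvPolynomial.aeval F' W = 0 := by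
      have h1 : MvPolynomial.aeval F' W = MvPolynomial.aeval F' Q ^ n * aeval a R := by
        rw [aeval_eq_sum_range, map_sum, Finset.mul_sum]
        refine Finset.sum_congr rfl fun i hi => ?_
        have hi' : i ≤ n := Nat.lt_succ_iff.1 (Finset.mem_range.1 hi)
        rw [map_mul, map_mul, map_pow, map_pow, MvPolynomial.aeval_C, ← hPQ, Algebra.smul_def]
        have h2 : (MvPolynomial.aeval F' Q : L) ^ n = MvPolynomial.aeval F' Q ^ i * MvPolynomial.aeval F' Q ^ (n - i) := by
          rw [← pow_add]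
          congr 1
          omega
        rw [h2]
        ring
      rw [h1, hRa, mul_zero]
    rw [hz'] at hW
    obtain ⟨p, q, ⟨x1, hx1, hq1⟩, hpq⟩ := hreg V g P Q R hVo hVne (fun x hx => hx.1) hg hR (fun x hx => hx.2)
      (fun x hx => mul_div_cancel₀ _ hx.2) (by
        intro x hx
        have h1 := hW x hx.1
        have h2 : evM (Sum.elim f y) x W = evM (Sum.elim f y) x Q ^ n * (R.map (MvPolynomial.eval x)).eval (g x) := by
          have h3 : evM (Sum.elim f y) x W = ∑ i ∈ Finset.range (n + 1),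
              MvPolynomial.eval x (R.coeff i) * evM (Sum.elim f y) x P ^ i * evM (Sum.elim f y) x Q ^ (n - i) := by
            simp only [evM, W, MvPolynomial.eval₂_sum, MvPolynomial.eval₂_mul, MvPolynomial.eval₂_pow,
              MvPolynomial.eval₂_C]
          rw [h3, eval_map, eval₂_eq_sum_range, Finset.mul_sum]
          refine Finset.sum_congr rfl fun i hi => ?_
          have h4 : evM (Sum.elim f y) x Q ^ n = evM (Sum.elim f y) x Q ^ i * evM (Sum.elim f y) x Q ^ (n - i) := by
            rw [← pow_add]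
            congr 1
            have := Finset.mem_range.1 hi
            omega
          have h5 : evM (Sum.elim f y) x P = evM (Sum.elim f y) x Q * g x := (mul_div_cancel₀ _ hx.2).symm
          rw [h4, h5]
          ring
        rw [h2] at h1
        rcases mul_eq_zero.1 h1 with h3 | h3
        · exact absurd h3 (pow_ne_zero _ hx.2)
        · exact h3)
    refine ⟨mk p, mk q, ?_, ?_⟩
    · intro h0
      exact hq1 (Ideal.Quotient.eq_zero_iff_mem.1 h0 x1 hx1)
    · set P1 : MvPolynomial (σ ⊕ Y) (MvPolynomial X ℂ) :=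
        MvPolynomial.rename Sum.inr q * P - MvPolynomial.rename Sum.inr p * Q with hP1
      have hevr : ∀ (r : B0) x, evM (Sum.elim f y) x (MvPolynomial.rename Sum.inr r) = evM y x r := by
        intro r x
        rw [evM_rename]
        rfl
      have h1 : MvPolynomial.aeval F' P1 = 0 := by
        rw [hz']
        have h2 := evM_an hfy P1
        obtain ⟨x0, hx0⟩ := hVne
        have h3 : ∀ᶠ x in 𝓝 x0, evM (Sum.elim f y) x P1 = 0 := by
          filter_upwards [hVo.mem_nhds hx0] with x hx
          have h4 := hpq x hx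
          have h5 : evM (Sum.elim f y) x P = evM (Sum.elim f y) x Q * g x := (mul_div_cancel₀ _ hx.2).symm
          have h6 : evM (Sum.elim f y) x P1 =
              evM y x q * evM (Sum.elim f y) x P - evM y x p * evM (Sum.elim f y) x Q := by
            rw [← hevr q x, ← hevr p x]
            simp only [evM, P1, MvPolynomial.eval₂_sub, MvPolynomial.eval₂_mul]
          rw [h6, h5, ← h4]
          ring
        exact h2.eqOn_zero_of_preconnected_of_eventuallyEq_zero hU hx0.1 h3
      have hjr : ∀ r : B0, algebraMap A L (mk r) = MvPolynomial.aeval F' (MvPolynomial.rename Sum.inr r) := by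
        intro r
        rw [hmapA, hjmk, MvPolynomial.aeval_rename]
        rfl
      rw [hjr, hjr]
      rw [map_sub, map_mul, map_mul, ← hPQ, sub_eq_zero] at h1
      have h2 : MvPolynomial.aeval F' Q * (MvPolynomial.aeval F' (MvPolynomial.rename Sum.inr q) * a) =
          MvPolynomial.aeval F' Q * MvPolynomial.aeval F' (MvPolynomial.rename Sum.inr p) := by
        rw [← mul_comm (MvPolynomial.aeval F' (MvPolynomial.rename Sum.inr p)), ← h1]
        ring
      exact mul_left_cancel₀ hQ h2
  · -- nonzero multiples in `ℂ[x]`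
    intro a ha
    obtain ⟨t, _, r, hr, hrt⟩ := (halgA.isAlgebraic a).exists_nonzero_eq_adjoin_mul (mem_nonZeroDivisors_of_ne_zero ha)
    refine ⟨r, hr, fun x hx h0 => ?_⟩
    have h1 : ph x hx (algebraMap (MvPolynomial X ℂ) A r) = MvPolynomial.eval x r := by
      change ph x hx (mk (MvPolynomial.C r)) = _
      rw [hph x hx, evM_C]
    rw [← h1, ← hrt, map_mul, h0, zero_mul]
  · intro I ι hind t0 ht0
    have hind' : AlgebraicIndependent (MvPolynomial X ℂ) ((fun i => F' (Sum.inl i)) ∘ ι) :=
      hind.restrictScalars hXA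
    refine locIndM_of hU hf (F := fun i => F' (Sum.inl i)) ?_ ι hind' t0 ht0
    intro p
    have h1 := hz' (MvPolynomial.rename Sum.inl p)
    rw [MvPolynomial.aeval_rename] at h1
    have h2 : (F' ∘ Sum.inl) = fun j => F' (Sum.inl j) := rfl
    rw [h2] at h1
    rw [h1]
    refine forall₂_congr fun x _ => ?_
    rw [evM_rename]
    rfl

end Pool.Agent.X255.GB
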