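import Pool.Agent.Y890.SP.Field

/-!
# Generic structure of a regular extension, over an arbitrary domain of characteristic zero
(adapted from `Pool.Agent.Y890.SP.Field`, where the base ring is factorial)
-/

set_option autoImplicit false
set_option linter.unusedSectionVars false

open Polynomial

namespace Pool.Agent.X255.GB

open Pool.Agent.Y890.SP

variable {A L : Type} [CommRing A] [IsDomain A] [Field L] [Algebra A L] [FaithfulSMul A L]

theorem deg_sum_lt {S : Type} [CommRing S] (n : ℕ) (c : ℕ → S) :
    (∑ i ∈ Finset.range n, C (c i) * X ^ i : S[X]).degree < n := by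
  refine lt_of_le_of_lt (degree_sum_le _ _) ?_
  refine (Finset.sup_lt_iff (WithBot.bot_lt_coe n)).2 ?_
  intro i hi
  refine lt_of_le_of_lt (degree_C_mul_X_pow_le _ _) ?_
  exact WithBot.coe_lt_coe.2 (Finset.mem_range.1 hi)

/-- a multiple of an algebraic element has a minimal polynomial with coefficients in the ring -/
theorem exists_scaled {S E₀ L : Type} [CommRing S] [IsDomain S] [Field E₀] [Algebra S E₀] [IsFractionRing S E₀]
    [Field L] [Algebra E₀ L] [Algebra.IsAlgebraic E₀ L] (θ₁ : L) :
    ∃ c : S, c ≠ 0 ∧ ∃ m : Polynomial S, m.Monic ∧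
      minpoly E₀ (algebraMap E₀ L (algebraMap S E₀ c) * θ₁) = m.map (algebraMap S E₀) := by
  classical
  set q := minpoly E₀ θ₁ with hq
  have hint : IsIntegral E₀ θ₁ := Algebra.IsIntegral.isIntegral θ₁
  have hqm : q.Monic := minpoly.monic hint
  set n := q.natDegree with hn
  have hnpos : 0 < n := minpoly.natDegree_pos hint
  obtain ⟨b, hb⟩ := IsLocalization.exist_integer_multiples_of_finset (nonZeroDivisors S)
    ((Finset.range n).image q.coeff)
  have hb' : ∀ i, i < n → ∃ s : S, algebraMap S E₀ s = algebraMap S E₀ b * q.coeff i := by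
    intro i hi
    obtain ⟨s, hs⟩ := hb _ (Finset.mem_image_of_mem _ (Finset.mem_range.2 hi))
    exact ⟨s, by rw [hs, Algebra.smul_def]⟩
  choose! s hs using hb'
  have hb0 : (b : S) ≠ 0 := nonZeroDivisors.ne_zero b.2
  have hbE : algebraMap S E₀ (b : S) ≠ 0 := (map_ne_zero_iff _ (IsFractionRing.injective S E₀)).2 hb0
  have hbL : algebraMap E₀ L (algebraMap S E₀ (b : S)) ≠ 0 := (map_ne_zero_iff _ (algebraMap E₀ L).injective).2 hbE
  refine ⟨b, hb0, X ^ n + ∑ i ∈ Finset.range n, C ((b : S) ^ (n - 1 - i) * s i) * X ^ i, ?_, ?_⟩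
  · refine monic_X_pow_add ?_
    exact deg_sum_lt n _
  · set m : S[X] := X ^ n + ∑ i ∈ Finset.range n, C ((b : S) ^ (n - 1 - i) * s i) * X ^ i with hm
    have hmm : m.Monic := by
      refine monic_X_pow_add ?_
      exact deg_sum_lt n _
    have hmn : m.natDegree = n := by
      rw [hm, natDegree_add_eq_left_of_degree_lt, natDegree_X_pow]
      rw [degree_X_pow]
      exact deg_sum_lt n _
    symm
    refine minpoly.unique E₀ _ (hmm.map _) ?_ ?_
    · have h1 : aeval θ₁ q = 0 := minpoly.aeval _ _
      have h2 : q = X ^ n + ∑ i ∈ Finset.range n, C (q.coeff i) * X ^ i := hqm.as_sum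
      rw [h2] at h1
      simp only [map_add, map_pow, aeval_X, map_sum, map_mul, aeval_C] at h1
      simp only [hm, Polynomial.map_add, Polynomial.map_pow, Polynomial.map_X, Polynomial.map_sum, Polynomial.map_mul,
        Polynomial.map_C, map_add, map_pow, aeval_X, map_sum, map_mul, aeval_C]
      have h3 : (algebraMap E₀ L (algebraMap S E₀ (b : S))) ^ n * (θ₁ ^ n +
          ∑ i ∈ Finset.range n, algebraMap E₀ L (q.coeff i) * θ₁ ^ i) = 0 := by
        rw [h1, mul_zero]
      rw [← h3, mul_add, mul_pow, Finset.mul_sum]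
      congr 1
      refine Finset.sum_congr rfl fun i hi => ?_
      rw [Finset.mem_range] at hi
      rw [hs i hi, map_mul, mul_pow]
      have h4 : n = (n - 1 - i) + 1 + i := by omega
      conv_rhs => rw [h4]
      rw [pow_add, pow_add, pow_one]
      have h5 : n - 1 - i + 1 + i - 1 - i = n - 1 - i := by omega
      ring
    · intro r hr hr0
      rw [hmm.degree_map, degree_eq_natDegree hmm.ne_zero, hmn, hn, hq]
      have h6 : aeval θ₁ (r.comp (C (algebraMap S E₀ (b : S)) * X)) = 0 := by
        rw [aeval_comp, map_mul, aeval_C, aeval_X]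
        exact hr0
      have h7 : r.comp (C (algebraMap S E₀ (b : S)) * X) ≠ 0 := by
        intro h0
        have h8 := congrArg natDegree h0
        rw [natDegree_comp, natDegree_C_mul_X _ hbE, mul_one, natDegree_zero] at h8
        have h9 : r = 1 := by
          rw [eq_C_of_natDegree_eq_zero h8]
          have h10 : r.coeff 0 = 1 := by
            have := hr.coeff_natDegree
            rwa [h8] at this
          rw [h10, C_1]
        rw [h9, map_one] at hr0
        exact one_ne_zero hr0
      have h8 := minpoly.degree_le_of_ne_zero E₀ θ₁ h7 h6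
      refine (degree_eq_natDegree (minpoly.ne_zero hint)).symm.le.trans (h8.trans ?_)
      rw [degree_eq_natDegree h7, natDegree_comp, natDegree_C_mul_X _ hbE, mul_one]
      exact degree_eq_natDegree hr.ne_zero |>.symm.le

theorem exists_dat' [CharZero A] {σ : Type} [Fintype σ] (f : σ → L)
    (hfrac : ∀ l : L, ∃ p q : MvPolynomial σ A, MvPolynomial.aeval f q ≠ 0 ∧
      MvPolynomial.aeval f q * l = MvPolynomial.aeval f p)
    (hreg : ∀ a : L, IsAlgebraic A a → ∃ p q : A, q ≠ 0 ∧ algebraMap A L q * a = algebraMap A L p) :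
    Nonempty (Dat A L f) := by
  classical
  have hAL : Function.Injective (algebraMap A L) := FaithfulSMul.algebraMap_injective A L
  -- the transcendence basis
  have halg0 : Algebra.IsAlgebraic (Algebra.adjoin A (Set.range f)) L := by
    refine ⟨fun l => ?_⟩
    obtain ⟨p, q, hq, hl⟩ := hfrac l
    have hmem : ∀ p : MvPolynomial σ A, MvPolynomial.aeval f p ∈ Algebra.adjoin A (Set.range f) := by
      intro p
      rw [Algebra.adjoin_range_eq_range_aeval]
      exact ⟨p, rfl⟩
    refine ⟨C ⟨_, hmem q⟩ * X - C ⟨_, hmem p⟩, ?_, ?_⟩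
    · intro h
      have h1 := congrArg (fun r => Polynomial.coeff r 1) h
      simp only [coeff_sub, coeff_C_mul, coeff_X_one, mul_one, coeff_C_succ, sub_zero, coeff_zero] at h1
      exact hq (congrArg Subtype.val h1)
    · rw [map_sub, map_mul, aeval_C, aeval_X, aeval_C, sub_eq_zero]
      exact hl
  obtain ⟨t, ht, htb⟩ := exists_isTranscendenceBasis_subset (R := A) (Set.range f)
  have hfinI : Finite t := (Set.finite_range f).subset ht
  let finI : Fintype t := Fintype.ofFinite t
  choose ι hι using fun x : t => ht x.2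
  have hfι : f ∘ ι = ((↑) : t → L) := funext hι
  rw [← hfι] at htb
  let S := MvPolynomial t A
  let algS : Algebra S L := (evI (f ∘ ι)).toAlgebra
  have hmapS : ∀ p : S, algebraMap S L p = evI (f ∘ ι) p := fun p => rfl
  have hSinj : Function.Injective (algebraMap S L) := htb.1
  have : FaithfulSMul S L := (faithfulSMul_iff_algebraMap_injective S L).2 hSinj
  have htower : IsScalarTower A S L := IsScalarTower.of_algebraMap_eq fun a => by
    rw [hmapS]
    exact (MvPolynomial.aeval_C (f ∘ ι) a).symm
  -- algebraic
  have halg1 : Algebra.IsAlgebraic S L := by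
    have h1 := htb.isAlgebraic
    refine ⟨fun l => ?_⟩
    have h2 : IsAlgebraic (Algebra.adjoin A (Set.range (f ∘ ι))) l := h1.isAlgebraic l
    exact h2.ringHom_of_comp_eq (htb.1.aevalEquiv.symm : _ →+* S) (RingHom.id L)
      (htb.1.aevalEquiv.symm.injective) (by
        ext y
        obtain ⟨z, rfl⟩ := htb.1.aevalEquiv.surjective y
        simp only [RingHom.comp_apply]
        change algebraMap S L (htb.1.aevalEquiv.symm (htb.1.aevalEquiv z)) = _
        rw [AlgEquiv.symm_apply_apply, hmapS]
        exact (htb.1.algebraMap_aevalEquiv z).symm)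
  -- the field of fractions
  let E₀ := FractionRing S
  let algE : Algebra E₀ L := FractionRing.liftAlgebra S L
  have htE : IsScalarTower S E₀ L := FractionRing.isScalarTower_liftAlgebra S L
  have hcharS : CharZero S := inferInstance
  have hcharE : CharZero E₀ := inferInstance
  have halgE : Algebra.IsAlgebraic E₀ L := Algebra.IsAlgebraic.extendScalars (R := S) (S := E₀) (A := L)
    (IsFractionRing.injective S E₀)
  have hadj : IntermediateField.adjoin E₀ (Set.range f) = ⊤ := by
    rw [eq_top_iff]
    intro l _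
    obtain ⟨p, q, hq, hl⟩ := hfrac l
    have hmem : ∀ p : MvPolynomial σ A, MvPolynomial.aeval f p ∈ IntermediateField.adjoin E₀ (Set.range f) := by
      intro p
      induction p using MvPolynomial.induction_on with
      | C a =>
        rw [MvPolynomial.aeval_C, IsScalarTower.algebraMap_apply A S L, IsScalarTower.algebraMap_apply S E₀ L]
        exact IntermediateField.algebraMap_mem _ _
      | add p q hp hq => rw [map_add]; exact add_mem hp hq
      | mul_X p i hp =>
        rw [map_mul, MvPolynomial.aeval_X]
        exact mul_mem hp (IntermediateField.subset_adjoin _ _ ⟨i, rfl⟩)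
    have h1 : l = MvPolynomial.aeval f p / MvPolynomial.aeval f q := by
      rw [eq_div_iff hq, mul_comm]
      exact hl
    rw [h1]
    exact div_mem (hmem p) (hmem q)
  have hfinE : FiniteDimensional E₀ L := by
    have h1 : FiniteDimensional E₀ (IntermediateField.adjoin E₀ (Set.range f)) :=
      IntermediateField.finiteDimensional_adjoin (by
        rintro _ ⟨i, rfl⟩
        exact Algebra.IsIntegral.isIntegral _)
    rw [hadj] at h1
    exact IntermediateField.topEquiv.toLinearEquiv.finiteDimensional
  obtain ⟨θ₀, hθ₀⟩ := Field.exists_primitive_element E₀ L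
  have hq0 : ∀ l : L, ∃ q : Polynomial (MvPolynomial t A), q ≠ 0 ∧ eval₂ (evI (f ∘ ι)) l q = 0 :=
    fun l => halg1.isAlgebraic l
  obtain ⟨b, P, hb, hP⟩ := exists_denom f ι hfrac hq0 θ₀
  obtain ⟨y, hy, m, hmm, hmE0⟩ := exists_scaled (S := S) (E₀ := E₀) (MvPolynomial.aeval f P : L)
  set θ : L := y • (MvPolynomial.aeval f P : L) with hθ
  set Θ : MvPolynomial σ A := MvPolynomial.rename ι y * P with hΘ
  have hΘθ : MvPolynomial.aeval f Θ = θ := by
    rw [hΘ, map_mul, ← evI_rename, hθ, Algebra.smul_def, hmapS]
  have hyb : y * b ≠ 0 := mul_ne_zero hy hb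
  have hθθ₀ : θ = algebraMap E₀ L (algebraMap S E₀ (y * b)) * θ₀ := by
    rw [← IsScalarTower.algebraMap_apply, hθ, Algebra.smul_def, ← hP, map_mul, hmapS, hmapS]
    ring
  have hprim : IntermediateField.adjoin E₀ {θ} = ⊤ := by
    rw [eq_top_iff, ← hθ₀, IntermediateField.adjoin_le_iff, Set.singleton_subset_iff]
    have h1 : algebraMap E₀ L (algebraMap S E₀ (y * b)) ≠ 0 := by
      rw [← IsScalarTower.algebraMap_apply]
      exact (map_ne_zero_iff _ hSinj).2 hyb
    have h2 : θ₀ = θ / algebraMap E₀ L (algebraMap S E₀ (y * b)) := by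
      rw [hθθ₀]
      field_simp
    rw [h2]
    exact div_mem (IntermediateField.mem_adjoin_simple_self _ _) (IntermediateField.algebraMap_mem _ _)
  -- the minimal polynomial
  have hmE : minpoly E₀ θ = m.map (algebraMap S E₀) := by
    rw [← hmE0, hθ, Algebra.smul_def, IsScalarTower.algebraMap_apply S E₀ L]
  have hroot : eval₂ (evI (f ∘ ι)) θ m = 0 := by
    have h1 : aeval θ (m.map (algebraMap S E₀)) = 0 := by rw [← hmE]; exact minpoly.aeval _ _
    rw [aeval_map_algebraMap] at h1
    exact h1
  have hmin : ∀ h : Polynomial S, h.degree < m.degree → eval₂ (evI (f ∘ ι)) θ h = 0 → h = 0 := by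
    intro h hd h0
    by_contra hne
    have hinjE : Function.Injective (algebraMap S E₀) := IsFractionRing.injective S E₀
    have h1 : h.map (algebraMap S E₀) ≠ 0 := (Polynomial.map_ne_zero_iff hinjE).2 hne
    have h2 : aeval θ (h.map (algebraMap S E₀)) = 0 := by
      rw [aeval_map_algebraMap]
      exact h0
    have h3 := minpoly.degree_le_of_ne_zero E₀ θ h1 h2
    rw [hmE, hmm.degree_map, degree_map_eq_of_injective hinjE] at h3
    exact absurd hd (not_lt.2 h3)
  -- absolute irreducibility
  let k := FractionRing A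
  let algk : Algebra k L := FractionRing.liftAlgebra A L
  have htk : IsScalarTower A k L := FractionRing.isScalarTower_liftAlgebra A L
  have hregk : ∀ a : L, IsAlgebraic k a → a ∈ (algebraMap k L).range := by
    intro a ha
    have h1 : IsAlgebraic A a := (IsFractionRing.isAlgebraic_iff A k L).2 ha
    obtain ⟨p, q, hq, hpq⟩ := hreg a h1
    refine ⟨algebraMap A k p / algebraMap A k q, ?_⟩
    have hq' : algebraMap A L q ≠ 0 := (map_ne_zero_iff _ hAL).2 hq
    rw [map_div₀, ← IsScalarTower.algebraMap_apply, ← IsScalarTower.algebraMap_apply, div_eq_iff hq', ← hpq]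
    ring
  let kb := AlgebraicClosure k
  let Ω := AlgebraicClosure L
  let j : kb →ₐ[k] Ω := IsAlgClosed.lift
  have hmpos : 0 < m.natDegree := by
    have h1 : 0 < (minpoly E₀ θ).natDegree := minpoly.natDegree_pos (Algebra.IsIntegral.isIntegral θ)
    rwa [hmE, hmm.natDegree_map] at h1
  have hnofac : ∀ a b, 0 < a → 0 < b →
      ¬ Fac (m.map (MvPolynomial.map ((algebraMap k kb).comp (algebraMap A k)))) a b := by
    rintro a b ha hb ⟨u, v, hu, hv, rfl, rfl, huv⟩
    have hdeg : (m.map (MvPolynomial.map (σ := t) ((algebraMap k kb).comp (algebraMap A k)))).natDegree = m.natDegree :=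
      hmm.natDegree_map _
    have hsum : u.natDegree + v.natDegree = m.natDegree := by
      rw [← hdeg, ← huv, hu.natDegree_mul hv]
    have hmin' : ∀ h : Polynomial (MvPolynomial t A), h.degree < m.natDegree → eval₂ (evI (f ∘ ι)) θ h = 0 → h = 0 := by
      intro h hd h0
      apply hmin h _ h0
      rw [degree_eq_natDegree hmm.ne_zero]
      exact hd
    have h1 := eval_ne (k := k) (f ∘ ι) θ m.natDegree hmin' hregk j u hu (by omega)
    have h2 := eval_ne (k := k) (f ∘ ι) θ m.natDegree hmin' hregk j v hv (by omega)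
    have h3 := mul_ne_zero h1 h2
    apply h3
    rw [← eval₂_mul, huv, eval₂_map]
    have h4 : (MvPolynomial.eval₂Hom (j : kb →+* Ω) fun i => algebraMap L Ω ((f ∘ ι) i)).comp
        (MvPolynomial.map ((algebraMap k kb).comp (algebraMap A k))) = (algebraMap L Ω).comp (evI (f ∘ ι)) := by
      refine MvPolynomial.ringHom_ext ?_ ?_
      · intro a
        simp only [RingHom.comp_apply, MvPolynomial.map_C, MvPolynomial.coe_eval₂Hom, MvPolynomial.eval₂_C]
        change j (algebraMap k kb (algebraMap A k a)) = algebraMap L Ω (MvPolynomial.aeval (f ∘ ι) (MvPolynomial.C a))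
        rw [AlgHom.commutes, MvPolynomial.aeval_C, IsScalarTower.algebraMap_apply A k L,
          ← IsScalarTower.algebraMap_apply k L Ω]
      · intro i
        simp only [RingHom.comp_apply, MvPolynomial.map_X, MvPolynomial.coe_eval₂Hom, MvPolynomial.eval₂_X]
        change _ = algebraMap L Ω (MvPolynomial.aeval (f ∘ ι) (MvPolynomial.X i))
        rw [MvPolynomial.aeval_X]
    rw [h4, ← hom_eval₂, hroot, map_zero]
  refine ⟨⟨t, finI, Classical.decEq t, ι, m, Θ, htb.1, hmm, hmpos, ?_, ?_, ?_⟩⟩
  · rw [hΘθ]
    exact hroot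
  · intro l
    rw [hΘθ]
    have h1 : l ∈ (⊤ : IntermediateField E₀ L) := trivial
    rw [← hprim, ← IntermediateField.mem_toSubalgebra,
      IntermediateField.adjoin_simple_toSubalgebra_of_isAlgebraic (Algebra.IsAlgebraic.isAlgebraic θ),
      Algebra.adjoin_singleton_eq_range_aeval] at h1
    obtain ⟨q, hq⟩ := h1
    have hq : aeval θ q = l := hq
    have hmEm : (minpoly E₀ θ).Monic := by
      rw [hmE]
      exact hmm.map _
    set r := q %ₘ (minpoly E₀ θ) with hr
    have hr1 : aeval θ r = l := by
      have h3 := congrArg (aeval θ) (modByMonic_add_div q (minpoly E₀ θ))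
      rw [map_add, map_mul, minpoly.aeval, zero_mul, add_zero] at h3
      rw [hr, h3, hq]
    have hr2 : r.degree < m.degree := by
      have := degree_modByMonic_lt q hmEm
      rw [hmE, hmm.degree_map] at this
      rw [hr, hmE]
      exact this
    obtain ⟨D, hD, hh⟩ := IsLocalization.integerNormalization_spec (nonZeroDivisors S) r
    refine ⟨D, IsLocalization.integerNormalization (nonZeroDivisors S) r, nonZeroDivisors.ne_zero hD, ?_, ?_⟩
    · refine lt_of_le_of_lt (degree_mono (IsLocalization.integerNormalization_support _ _)) hr2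
    · have h4 : aeval θ ((IsLocalization.integerNormalization (nonZeroDivisors S) r).map (algebraMap S E₀)) =
          evI (f ∘ ι) D * l := by
        have h5 : D • r = C (algebraMap S E₀ D) * r := by
          rw [← smul_eq_C_mul, algebraMap_smul]
        rw [hh, h5, map_mul, aeval_C, hr1, ← IsScalarTower.algebraMap_apply]
        rfl
      rw [← h4, aeval_map_algebraMap]
      rfl
  · exact bn_all (k := k) (kb := kb) m hmm m.natDegree rfl hmpos hnofac

end Pool.Agent.X255.GB
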