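import Pool.Agent.X255.GB.One

/-!
# All degrees, heights and number fields at once, and the monodromy
-/

set_option autoImplicit false
set_option linter.unusedSectionVars false

open NumberField Filter Topology

namespace Pool.Agent.X255.GB

open Pool.Agent.Y890.MV
open Pool.Agent.Y124 (Cov)

section fin

variable {X Y σ : Type} [Fintype X] [DecidableEq X] [Fintype Y] [DecidableEq Y]
  [Fintype σ] [DecidableEq σ]

/-- the points of the base over `K` at which some relation of degree at most `δ` in each function, with coefficients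
`∑ ξ i * c i`, `c i` integers of `K` of size at most `T ^ A`, is not the value of a functional relation -/
def ExcY (δ : ℕ) {h : Type} [Fintype h] (U : Set (X → ℂ)) (y : Y → (X → ℂ) → ℂ)
    (f : σ → (X → ℂ) → ℂ) (Lc : Set (X → ℂ)) (K : Type) [Field K] [NumberField K] (io : K →+* ℂ) (ξ : h → ℂ)
    (A T : ℝ) : Set (X → K) :=
  {s | (∀ i, Y120.HtLe K T (s i)) ∧ (fun i => io (s i)) ∈ Lc ∧
    (∃ z : Y → K, (∀ j, Y120.HtLe K (T ^ A) (z j)) ∧ ∀ j, y j (fun i => io (s i)) = io (z j)) ∧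
    ∃ c : (σ → Fin (δ + 1)) → h → 𝓞 K,
      (∀ l i (φ : K →+* ℂ), ‖φ (c l i : K)‖ ≤ T ^ A) ∧
      ∑ l, (∑ i, ξ i * io (c l i : K)) * ∏ v, f v (fun i => io (s i)) ^ (l v : ℕ) = 0 ∧
      ¬ ∃ G : (σ → Fin (δ + 1)) → MvPolynomial (Y ⊕ X) ℂ,
        (∀ l, MvPolynomial.eval (pt y fun i => io (s i)) (G l) = ∑ i, ξ i * io (c l i : K)) ∧
        ∀ x ∈ U, ∑ l, MvPolynomial.eval (pt y x) (G l) * ∏ v, f v x ^ (l v : ℕ) = 0}

theorem excY_cov [Nonempty X] {U : Set (X → ℂ)} {y : Y → (X → ℂ) → ℂ} {f : σ → (X → ℂ) → ℂ} (hU : IsPreconnected U)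
    (hUo : IsOpen U) (hne : U.Nonempty) (hy : ∀ j, AnalyticOnNhd ℂ (y j) U) (hf : ∀ i, AnalyticOnNhd ℂ (f i) U)
    (halg : AlgY U y) (hreg : RegularY U y f) (Lc : Set (X → ℂ))
    (hLc : IsCompact Lc) (hLU : Lc ⊆ U) (δ : ℕ) (h : Type) [Fintype h] [DecidableEq h] (m : ℕ) (A ε : ℝ)
    (hε : 0 < ε) : ∃ (D : ℕ) (C T₀ : ℝ), 0 ≤ C ∧ 2 ≤ T₀ ∧
      ∀ (K : Type) [Field K] [NumberField K], Module.finrank ℚ K ≤ m → ∀ (io : K →+* ℂ) (ξ : h → ℂ) (T : ℝ),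
        T₀ ≤ T → Cov D ⌊C * T ^ ε⌋₊ ((fun (s : X → K) i => io (s i)) '' ExcY δ U y f Lc K io ξ A T) := by
  obtain ⟨N, _, _, M, h1, ⟨q₂, hq₂, h2⟩, h3⟩ := oneY stmZ stmClose stmCharts hU hUo hne hy hf halg hreg Lc hLc hLU δ
  obtain ⟨D, C, T₀, hC, hT₀, H⟩ := h3 h m A ε hε
  refine ⟨max D q₂.totalDegree, C + 1, T₀, by positivity, hT₀, ?_⟩
  intro K _ _ hm io ξ T hT
  have hT1 : 1 ≤ T := by linarith
  set Z : Set (X → ℂ) := {t | MvPolynomial.eval t q₂ = 0} with hZ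
  have hZcov : Cov q₂.totalDegree 1 Z := by
    refine ⟨{q₂}, by simp, ?_, ?_⟩
    · intro P hP
      rw [Finset.mem_singleton] at hP
      subst hP
      exact ⟨hq₂, le_rfl⟩
    · intro t ht
      exact ⟨q₂, Finset.mem_singleton_self _, ht⟩
  have hcov := H K hm io ξ T hT
  have hsub : (fun (s : X → K) i => io (s i)) '' ExcY δ U y f Lc K io ξ A T ⊆
      ((fun (s : X → K) i => io (s i)) '' BadY δ M y f Lc K io ξ A T) ∪ Z := by
    rintro _ ⟨s, ⟨hs1, hs2, hs3, c, hc1, hc2, hc3⟩, rfl⟩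
    by_cases hsZ : (fun i => io (s i)) ∈ Z
    · exact Or.inr hsZ
    left
    refine ⟨s, ⟨hs1, hs2, hs3, c, hc1, hc2, ?_⟩, rfl⟩
    by_contra hcon
    push Not at hcon
    obtain ⟨G, hG1, hG2⟩ := h2 _ (hLU hs2) hsZ _ hcon
    exact hc3 ⟨G, hG1, h1 G hG2⟩
  have h4 := (hcov.mono (le_max_left D q₂.totalDegree) le_rfl (Set.Subset.refl _)).union
    (hZcov.mono (le_max_right D q₂.totalDegree) le_rfl (Set.Subset.refl _))
  refine h4.mono le_rfl ?_ hsub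
  have h6 : (1 : ℝ) ≤ T ^ ε := Real.one_le_rpow hT1 hε.le
  have h7 : 0 ≤ C * T ^ ε := by positivity
  rw [← Nat.floor_add_one h7]
  apply Nat.floor_le_floor
  nlinarith

theorem excY_omega [Nonempty X] {U : Set (X → ℂ)} {y : Y → (X → ℂ) → ℂ} {f : σ → (X → ℂ) → ℂ} (hU : IsPreconnected U)
    (hUo : IsOpen U) (hne : U.Nonempty) (hy : ∀ j, AnalyticOnNhd ℂ (y j) U) (hf : ∀ i, AnalyticOnNhd ℂ (f i) U)
    (halg : AlgY U y) (hreg : RegularY U y f) :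
    ∃ (ω : ℝ → ℕ) (T₀ : ℝ), Tendsto ω atTop atTop ∧ Monotone ω ∧ ∀ T, T₀ ≤ T → 0 < ω T ∧
      ∀ (K : Type) [Field K] [NumberField K], Module.finrank ℚ K ≤ ω T → ∀ (io : K →+* ℂ) (ξ : Fin (ω T) → ℂ),
        Cov ⌊T ^ ((ω T : ℝ)⁻¹)⌋₊ ⌊T ^ ((ω T : ℝ)⁻¹)⌋₊
          ((fun (s : X → K) j => io (s j)) '' ExcY (ω T) U y f (InnerM U (ω T)) K io ξ (ω T) T) ∧
        (ExcY (ω T) U y f (InnerM U (ω T)) K io ξ (ω T) T).Finite ∧
        ((ExcY (ω T) U y f (InnerM U (ω T)) K io ξ (ω T) T).ncard : ℝ) ≤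
          T ^ ((ω T : ℝ)⁻¹) * ({x : K | Y120.HtLe K T x}.ncard : ℝ) ^ (Fintype.card X - 1) := by
  classical
  obtain ⟨ω, T₀, h1, h2, h3⟩ := omega_gen (X := X) (fun k => Fin k → ℂ)
    (fun k K _ _ io ξ T => ExcY k U y f (InnerM U k) K io ξ (k : ℝ) T)
    (fun k K _ _ io _ T s hs => hs.1) (by
      intro k ε hε
      rcases Nat.eq_zero_or_pos k with hk | hk
      · refine ⟨0, 0, 2, le_rfl, le_rfl, ?_⟩
        intro K _ _ hK
        have h1 : 0 < Module.finrank ℚ K := Module.finrank_pos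
        omega
      obtain ⟨D, C, T₀, hC, hT₀, H⟩ := excY_cov hU hUo hne hy hf halg hreg (InnerM U k) (innerM_compact _ _)
        (innerM_sub _ hk) k (Fin k) k (k : ℝ) ε hε
      exact ⟨D, C, T₀, hC, hT₀, fun K _ _ hK io ξ T hT => H K hK io ξ T hT⟩)
  exact ⟨ω, T₀, h1, h2, h3⟩

end fin

end Pool.Agent.X255.GB
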