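import Pool.Agent.X255.GB.Fin

/-!
# Monodromy of families over arbitrary base varieties
-/

set_option autoImplicit false
set_option linter.unusedSectionVars false

open NumberField Filter Topology

namespace Pool.Agent.X255.GB

open Pool.Agent.Y890.MV
open Pool.Agent.Y124 (Cov)

variable {X Y H J : Type} [Fintype X] [Fintype H] [DecidableEq H] [Fintype J] [DecidableEq J]

/-- `(y', P')` on `V` is obtained from `(y, P)` on `U` by analytic continuation along a chain of connected open sets -/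
inductive Cont (U : Set (X → ℂ)) (y : Y → (X → ℂ) → ℂ) (P : (X → ℂ) → Matrix H J ℂ) :
    Set (X → ℂ) → (Y → (X → ℂ) → ℂ) → ((X → ℂ) → Matrix H J ℂ) → Prop
  | refl : Cont U y P U y P
  | step (V V' W : Set (X → ℂ)) (y' y'' : Y → (X → ℂ) → ℂ) (P' P'' : (X → ℂ) → Matrix H J ℂ) :
      Cont U y P V y' P' → IsPreconnected V' → (∀ j, AnalyticOnNhd ℂ (y'' j) V') →
      (∀ a b, AnalyticOnNhd ℂ (fun x => P'' x a b) V') → IsOpen W → W.Nonempty → W ⊆ V → W ⊆ V' →
      (∀ x ∈ W, (∀ j, y'' j x = y' j x) ∧ P'' x = P' x) → Cont U y P V' y'' P''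

/-- `γ` is a monodromy matrix: some analytic continuation of `(y, P)` is `(y, γ * P)` on a nonempty open subset of `U` -/
def IsMonodromy (U : Set (X → ℂ)) (y : Y → (X → ℂ) → ℂ) (P : (X → ℂ) → Matrix H J ℂ) (γ : Matrix H H ℂ) : Prop :=
  ∃ (V W : Set (X → ℂ)) (y' : Y → (X → ℂ) → ℂ) (P' : (X → ℂ) → Matrix H J ℂ), Cont U y P V y' P' ∧
    IsOpen W ∧ W.Nonempty ∧ W ⊆ V ∧ W ⊆ U ∧ ∀ x ∈ W, (∀ j, y' j x = y j x) ∧ P' x = γ * P x

/-- the Zariski closure of the monodromy -/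
def AlgMonodromy (U : Set (X → ℂ)) (y : Y → (X → ℂ) → ℂ) (P : (X → ℂ) → Matrix H J ℂ) : Set (Matrix H H ℂ) :=
  {g | ∀ R : MvPolynomial (H × H) ℂ, (∀ γ, IsMonodromy U y P γ → MvPolynomial.eval (fun q => γ q.1 q.2) R = 0) →
    MvPolynomial.eval (fun q => g q.1 q.2) R = 0}

/-- the value of the relation with the coefficients `a` at the matrix `Q` -/
noncomputable def relVal {δ : ℕ} (a : (H × J → Fin (δ + 1)) → ℂ) (Q : Matrix H J ℂ) : ℂ :=
  ∑ l, a l * ∏ v, Q v.1 v.2 ^ (l v : ℕ)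

theorem an_eval {V : Set (X → ℂ)} {y : Y → (X → ℂ) → ℂ} (hy : ∀ j, AnalyticOnNhd ℂ (y j) V)
    (p : MvPolynomial (Y ⊕ X) ℂ) : AnalyticOnNhd ℂ (fun x => MvPolynomial.eval (pt y x) p) V := by
  induction p using MvPolynomial.induction_on with
  | C a =>
    simp only [MvPolynomial.eval_C]
    exact analyticOnNhd_const
  | add p q hp hq =>
    simp only [map_add]
    exact hp.add hq
  | mul_X p i hp =>
    simp only [map_mul, MvPolynomial.eval_X]
    refine hp.mul ?_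
    rcases i with j | i
    · exact hy j
    · exact (ContinuousLinearMap.proj (R := ℂ) (φ := fun _ : X => ℂ) i).analyticOnNhd V

theorem an_rel {V : Set (X → ℂ)} {y : Y → (X → ℂ) → ℂ} {P : (X → ℂ) → Matrix H J ℂ}
    (hy : ∀ j, AnalyticOnNhd ℂ (y j) V) (hP : ∀ a b, AnalyticOnNhd ℂ (fun x => P x a b) V) {δ : ℕ}
    (G : (H × J → Fin (δ + 1)) → MvPolynomial (Y ⊕ X) ℂ) :
    AnalyticOnNhd ℂ (fun x => relVal (fun l => MvPolynomial.eval (pt y x) (G l)) (P x)) V := by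
  unfold relVal
  refine Finset.analyticOnNhd_fun_sum _ fun l _ => ?_
  refine (an_eval hy (G l)).mul ?_
  refine Finset.analyticOnNhd_fun_prod _ fun v _ => ?_
  exact (hP v.1 v.2).pow _

theorem relVal_congr {V : Set (X → ℂ)} {y y' : Y → (X → ℂ) → ℂ} {x : X → ℂ} (h : ∀ j, y' j x = y j x) {δ : ℕ}
    (G : (H × J → Fin (δ + 1)) → MvPolynomial (Y ⊕ X) ℂ) (Q : Matrix H J ℂ) :
    relVal (fun l => MvPolynomial.eval (pt y' x) (G l)) Q = relVal (fun l => MvPolynomial.eval (pt y x) (G l)) Q := by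
  have h1 : pt y' x = pt y x := by
    funext o
    rcases o with j | i
    · exact h j
    · rfl
  rw [h1]

/-- functional relations are preserved by continuation -/
theorem Cont.rel {U : Set (X → ℂ)} {y : Y → (X → ℂ) → ℂ} {P : (X → ℂ) → Matrix H J ℂ}
    {δ : ℕ} (G : (H × J → Fin (δ + 1)) → MvPolynomial (Y ⊕ X) ℂ)
    (hG : ∀ x ∈ U, relVal (fun l => MvPolynomial.eval (pt y x) (G l)) (P x) = 0)
    {V : Set (X → ℂ)} {y' : Y → (X → ℂ) → ℂ} {P' : (X → ℂ) → Matrix H J ℂ} (h : Cont U y P V y' P') :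
    ∀ x ∈ V, relVal (fun l => MvPolynomial.eval (pt y' x) (G l)) (P' x) = 0 := by
  induction h with
  | refl => exact hG
  | step V V' W y' y'' P' P'' _ hc hy hP hWo hWn hWV hWV' heq ih =>
    obtain ⟨x0, hx0⟩ := hWn
    refine (an_rel hy hP G).eqOn_zero_of_preconnected_of_eventuallyEq_zero hc (hWV' hx0) ?_
    filter_upwards [hWo.mem_nhds hx0] with x hx
    have h1 := ih x (hWV hx)
    obtain ⟨h2, h3⟩ := heq x hx
    rw [relVal_congr (V := V) h2, h3]
    exact h1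

/-- functional relations are invariant under the monodromy -/
theorem rel_mon {U : Set (X → ℂ)} {y : Y → (X → ℂ) → ℂ} {P : (X → ℂ) → Matrix H J ℂ} (hU : IsPreconnected U)
    (hy : ∀ j, AnalyticOnNhd ℂ (y j) U) (hP : ∀ a b, AnalyticOnNhd ℂ (fun x => P x a b) U)
    {δ : ℕ} (G : (H × J → Fin (δ + 1)) → MvPolynomial (Y ⊕ X) ℂ)
    (hG : ∀ x ∈ U, relVal (fun l => MvPolynomial.eval (pt y x) (G l)) (P x) = 0) (γ : Matrix H H ℂ)
    (hγ : IsMonodromy U y P γ) : ∀ x ∈ U, relVal (fun l => MvPolynomial.eval (pt y x) (G l)) (γ * P x) = 0 := by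
  obtain ⟨V, W, y', P', hc, hWo, ⟨x0, hx0⟩, hWV, hWU, heq⟩ := hγ
  have hP2 : ∀ a b, AnalyticOnNhd ℂ (fun x => (γ * P x) a b) U := by
    intro a b
    simp only [Matrix.mul_apply]
    refine Finset.analyticOnNhd_fun_sum _ fun c _ => ?_
    exact analyticOnNhd_const.mul (hP c b)
  refine (an_rel hy hP2 G).eqOn_zero_of_preconnected_of_eventuallyEq_zero hU (hWU hx0) ?_
  filter_upwards [hWo.mem_nhds hx0] with x hx
  obtain ⟨h2, h3⟩ := heq x hx
  have h4 := hc.rel G hG x (hWV hx)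
  rw [relVal_congr (V := V) h2, h3] at h4
  exact h4

/-- functional relations are invariant under the Zariski closure of the monodromy -/
theorem rel_alg {U : Set (X → ℂ)} {y : Y → (X → ℂ) → ℂ} {P : (X → ℂ) → Matrix H J ℂ} (hU : IsPreconnected U)
    (hy : ∀ j, AnalyticOnNhd ℂ (y j) U) (hP : ∀ a b, AnalyticOnNhd ℂ (fun x => P x a b) U)
    {δ : ℕ} (G : (H × J → Fin (δ + 1)) → MvPolynomial (Y ⊕ X) ℂ)
    (hG : ∀ x ∈ U, relVal (fun l => MvPolynomial.eval (pt y x) (G l)) (P x) = 0) (g : Matrix H H ℂ)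
    (hg : g ∈ AlgMonodromy U y P) : ∀ x ∈ U, relVal (fun l => MvPolynomial.eval (pt y x) (G l)) (g * P x) = 0 := by
  intro x hx
  let R : MvPolynomial (H × H) ℂ := ∑ l, MvPolynomial.C (MvPolynomial.eval (pt y x) (G l)) *
    ∏ v : H × J, (∑ c, MvPolynomial.X (v.1, c) * MvPolynomial.C (P x c v.2)) ^ (l v : ℕ)
  have hR : ∀ g : Matrix H H ℂ, MvPolynomial.eval (fun q => g q.1 q.2) R =
      relVal (fun l => MvPolynomial.eval (pt y x) (G l)) (g * P x) := by
    intro g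
    simp only [R, relVal, map_sum, map_mul, map_prod, map_pow, MvPolynomial.eval_C, MvPolynomial.eval_X,
      Matrix.mul_apply]
  rw [← hR]
  refine hg R fun γ hγ => ?_
  rw [hR]
  exact rel_mon hU hy hP G hG γ hγ x hx

variable [DecidableEq X] [Fintype Y] [DecidableEq Y]

/-- the points of the base over `K` at which some relation of degree at most `δ` in each entry of the matrix, with
coefficients `∑ ξ i * c i`, `c i` integers of `K` of size at most `T ^ A`, does not hold on the orbit of the matrix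
under the Zariski closure of the monodromy -/
def ExcMon (δ : ℕ) {h : Type} [Fintype h] (U : Set (X → ℂ)) (y : Y → (X → ℂ) → ℂ)
    (P : (X → ℂ) → Matrix H J ℂ) (Lc : Set (X → ℂ)) (K : Type) [Field K] [NumberField K] (io : K →+* ℂ) (ξ : h → ℂ)
    (A T : ℝ) : Set (X → K) :=
  {s | (∀ i, Y120.HtLe K T (s i)) ∧ (fun i => io (s i)) ∈ Lc ∧
    (∃ z : Y → K, (∀ j, Y120.HtLe K (T ^ A) (z j)) ∧ ∀ j, y j (fun i => io (s i)) = io (z j)) ∧
    ∃ c : (H × J → Fin (δ + 1)) → h → 𝓞 K,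
      (∀ l i (φ : K →+* ℂ), ‖φ (c l i : K)‖ ≤ T ^ A) ∧
      relVal (fun l => ∑ i, ξ i * io (c l i : K)) (P fun i => io (s i)) = 0 ∧
      ∃ g ∈ AlgMonodromy U y P, relVal (fun l => ∑ i, ξ i * io (c l i : K)) (g * P fun i => io (s i)) ≠ 0}

theorem excMon_sub {U : Set (X → ℂ)} {y : Y → (X → ℂ) → ℂ} {P : (X → ℂ) → Matrix H J ℂ} (hU : IsPreconnected U)
    (hy : ∀ j, AnalyticOnNhd ℂ (y j) U) (hP : ∀ a b, AnalyticOnNhd ℂ (fun x => P x a b) U)
    (δ : ℕ) {h : Type} [Fintype h] (Lc : Set (X → ℂ)) (hLU : Lc ⊆ U)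
    (K : Type) [Field K] [NumberField K] (io : K →+* ℂ) (ξ : h → ℂ) (A T : ℝ) :
    ExcMon δ U y P Lc K io ξ A T ⊆ ExcY δ U y (fun (v : H × J) (x : X → ℂ) => P x v.1 v.2) Lc K io ξ A T := by
  rintro s ⟨h1, h2, h3, c, h4, h5, g, hg, h6⟩
  refine ⟨h1, h2, h3, c, h4, h5, ?_⟩
  rintro ⟨G, hG1, hG2⟩
  apply h6
  have h7 := rel_alg hU hy hP G (fun x hx => hG2 x hx) g hg _ (hLU h2)
  simp only [hG1] at h7
  exact h7

end Pool.Agent.X255.GB
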