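import Pool.Agent.X255.GB.Base

/-!
# Relations at the points of a variety over a number field are specializations of functional relations, outside few
# hypersurfaces (adapted from `Pool.Agent.Y890.MV.One`)
-/

set_option autoImplicit false
set_option linter.unusedSectionVars false

open Polynomial NumberField

namespace Pool.Agent.X255.GB

open Pool.Agent.Y890.MV
open Pool.Agent.Y890.SP (ex box box_of_le eval_box evI evI_rename relPoly relPoly_degree relPoly_coeff relPoly_zero
  resG resG_map resP res_eval eq_zero_of_resultant norm_prod_le)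
open Pool.Agent.Y124 (Cov RelK)

/-- the coordinates of the point of the base -/
def pt {X Y : Type} (y : Y → (X → ℂ) → ℂ) (t : X → ℂ) : Y ⊕ X → ℂ := Sum.elim (fun j => y j t) t

/-- the points at which there is a relation between the monomials of bounded degree in the functions, with coefficients
in `∑ ξ i * 𝓞 K` of bounded size, to which the matrix `M` is not orthogonal -/
def BadY {X Y σ h N : Type} [Fintype σ] [DecidableEq σ] [Fintype h] (δ : ℕ)
    (M : N → (σ → Fin (δ + 1)) → MvPolynomial (Y ⊕ X) ℂ) (y : Y → (X → ℂ) → ℂ)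
    (f : σ → (X → ℂ) → ℂ) (Lc : Set (X → ℂ)) (K : Type) [Field K] [NumberField K] (io : K →+* ℂ) (ξ : h → ℂ)
    (A T : ℝ) : Set (X → K) :=
  {s | (∀ i, Y120.HtLe K T (s i)) ∧ (fun i => io (s i)) ∈ Lc ∧
    (∃ z : Y → K, (∀ j, Y120.HtLe K (T ^ A) (z j)) ∧ ∀ j, y j (fun i => io (s i)) = io (z j)) ∧
    ∃ c : (σ → Fin (δ + 1)) → h → 𝓞 K,
    (∀ l i (φ : K →+* ℂ), ‖φ (c l i : K)‖ ≤ T ^ A) ∧
    ∑ l, (∑ i, ξ i * io (c l i : K)) * ∏ v, f v (fun i => io (s i)) ^ (l v : ℕ) = 0 ∧
    ∃ ν, ∑ l, MvPolynomial.eval (pt y fun i => io (s i)) (M ν l) * (∑ i, ξ i * io (c l i : K)) ≠ 0}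

/-- **Families over arbitrary base varieties.** -/
theorem oneY (hZ0 : StmZ) (hCl : StmClose) (hCh : StmCharts) {X Y σ : Type} [Fintype X] [DecidableEq X] [Nonempty X]
    [Fintype Y] [DecidableEq Y]
    [Fintype σ] [DecidableEq σ] {U : Set (X → ℂ)} {y : Y → (X → ℂ) → ℂ} {f : σ → (X → ℂ) → ℂ} (hU : IsPreconnected U)
    (hUo : IsOpen U) (hne : U.Nonempty) (hy : ∀ j, AnalyticOnNhd ℂ (y j) U) (hf : ∀ i, AnalyticOnNhd ℂ (f i) U)
    (halg : AlgY U y) (hreg : RegularY U y f) (Lc : Set (X → ℂ))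
    (hLc : IsCompact Lc) (hLU : Lc ⊆ U) (δ : ℕ) :
    ∃ (N : Type) (_ : Fintype N) (_ : DecidableEq N) (M : N → (σ → Fin (δ + 1)) → MvPolynomial (Y ⊕ X) ℂ),
      (∀ G : (σ → Fin (δ + 1)) → MvPolynomial (Y ⊕ X) ℂ,
        (∀ ν, ∀ x ∈ U, ∑ l, MvPolynomial.eval (pt y x) (M ν l) * MvPolynomial.eval (pt y x) (G l) = 0) →
        ∀ x ∈ U, ∑ l, MvPolynomial.eval (pt y x) (G l) * ∏ v, f v x ^ (l v : ℕ) = 0) ∧
      (∃ q₂ : MvPolynomial X ℂ, q₂ ≠ 0 ∧ ∀ t ∈ U, MvPolynomial.eval t q₂ ≠ 0 → ∀ P : (σ → Fin (δ + 1)) → ℂ,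
        (∀ ν, ∑ l, MvPolynomial.eval (pt y t) (M ν l) * P l = 0) →
        ∃ G : (σ → Fin (δ + 1)) → MvPolynomial (Y ⊕ X) ℂ, (∀ l, MvPolynomial.eval (pt y t) (G l) = P l) ∧
          ∀ ν, ∀ x ∈ U, ∑ l, MvPolynomial.eval (pt y x) (M ν l) * MvPolynomial.eval (pt y x) (G l) = 0) ∧
      ∀ (h : Type) [Fintype h] [DecidableEq h] (m : ℕ) (A ε : ℝ), 0 < ε → ∃ (D : ℕ) (C T₀ : ℝ), 0 ≤ C ∧ 2 ≤ T₀ ∧
        ∀ (K : Type) [Field K] [NumberField K], Module.finrank ℚ K ≤ m → ∀ (io : K →+* ℂ) (ξ : h → ℂ) (T : ℝ),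
          T₀ ≤ T → Cov D ⌊C * T ^ ε⌋₊ ((fun (s : X → K) i => io (s i)) '' BadY δ M y f Lc K io ξ A T) := by
  classical
  obtain ⟨AA, _, _, _, L, _, _, _, F, π, ph, hπ, hphπ, hz, hfrac, hregA, hden, hlocind⟩ :=
    exists_model hU hUo hne hy hf halg hreg
  have hzero : ∀ a : AA, (∀ x (hx : x ∈ U), ph x hx a = 0) → a = 0 := by
    intro a ha
    have h1 : MvPolynomial.aeval F (MvPolynomial.C a) = 0 := by
      rw [hz]
      intro x hx
      rw [MvPolynomial.eval₂_C]
      exact ha x hx
    rw [MvPolynomial.aeval_C] at h1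
    exact (map_eq_zero_iff _ (FaithfulSMul.algebraMap_injective AA L)).1 h1
  obtain ⟨d⟩ := exists_dat' F hfrac hregA
  let := d.fin
  let := d.dec
  let Λ := σ → Fin (δ + 1)
  let lm : Λ → MvPolynomial σ AA := fun l => ∏ v, MvPolynomial.X v ^ (l v : ℕ)
  have hlm : ∀ l x (hx : x ∈ U), MvPolynomial.eval₂ (ph x hx) (fun i => f i x) (lm l) = ∏ v, f v x ^ (l v : ℕ) := by
    intro l x hx
    rw [MvPolynomial.eval₂_prod]
    refine Finset.prod_congr rfl fun v _ => ?_
    rw [MvPolynomial.eval₂_pow, MvPolynomial.eval₂_X]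
  obtain ⟨D, hh, hD, hh'⟩ := d.exists_fam (fun l : Λ => MvPolynomial.aeval F (lm l))
  set e := d.m.natDegree with he
  have hhe : ∀ l, (hh l).natDegree < e := by
    intro l
    rcases eq_or_ne (hh l) 0 with h0 | h0
    · rw [h0, natDegree_zero]
      exact d.pos
    · exact natDegree_lt_natDegree h0 (hh' l).1
  set Nb : ℕ := ∑ l, ∑ i ∈ Finset.range e, ((hh l).coeff i).totalDegree with hNb
  have hNb' : ∀ l i, ((hh l).coeff i).totalDegree ≤ Nb := by
    intro l i
    by_cases hi : i < e
    · have h1 : ((hh l).coeff i).totalDegree ≤ ∑ i ∈ Finset.range e, ((hh l).coeff i).totalDegree :=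
        Finset.single_le_sum (f := fun i => ((hh l).coeff i).totalDegree) (fun _ _ => Nat.zero_le _)
          (Finset.mem_range.2 hi)
      exact h1.trans (Finset.single_le_sum (f := fun l => ∑ i ∈ Finset.range e, ((hh l).coeff i).totalDegree)
        (fun _ _ => Nat.zero_le _) (Finset.mem_univ l))
    · rw [coeff_eq_zero_of_natDegree_lt (by have := hhe l; omega)]
      simp
  let N := Fin e × (d.I → Fin (Nb + 1))
  let MA : N → Λ → AA := fun ν l => ((hh l).coeff ν.1).coeff (ex ν.2)
  choose M hM using fun (ν : N) (l : Λ) => hπ (MA ν l)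
  have hMev : ∀ (ν : N) (l : Λ) x (hx : x ∈ U), MvPolynomial.eval (pt y x) (M ν l) = ph x hx (MA ν l) := by
    intro ν l x hx
    rw [← hM, hphπ]
    rfl
  obtain ⟨D₁, hD₁, hirr⟩ := d.irr
  obtain ⟨q₁, hq₁, hq₁'⟩ := hden D₁ hD₁
  refine ⟨N, inferInstance, inferInstance, M, ?_, ?_, ?_⟩
  · -- the kernel
    intro G hG x hx
    have hG' : ∀ ν, ∑ l, MA ν l * π (G l) = 0 := by
      intro ν
      apply hzero
      intro x hx
      rw [← hG ν x hx, map_sum]
      refine Finset.sum_congr rfl fun l _ => ?_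
      rw [map_mul, hMev ν l x hx, hphπ]
      rfl
    have h1 : relPoly hh (fun l => π (G l)) = 0 := by
      apply relPoly_zero hh (fun l => π (G l)) e Nb hhe hNb'
      intro i α
      rw [← hG' (i, α)]
      refine Finset.sum_congr rfl fun l _ => mul_comm _ _
    have h2 : eval₂ (evI (F ∘ d.ι)) (MvPolynomial.aeval F d.Θ) (relPoly hh fun l => π (G l)) =
        evI (F ∘ d.ι) D * MvPolynomial.aeval F (∑ l, MvPolynomial.C (π (G l)) * lm l) := by
      rw [relPoly, eval₂_finsetSum, map_sum, Finset.mul_sum]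
      refine Finset.sum_congr rfl fun l _ => ?_
      rw [eval₂_mul, eval₂_C, ← (hh' l).2, map_mul]
      have h3 : evI (F ∘ d.ι) (MvPolynomial.C (π (G l))) = MvPolynomial.aeval F (MvPolynomial.C (π (G l))) := by
        rw [evI_rename, MvPolynomial.rename_C]
      rw [h3]
      ring
    rw [h1, eval₂_zero] at h2
    have h4 : evI (F ∘ d.ι) D ≠ 0 := by
      intro h0
      exact hD (d.ind (h0.trans (map_zero _).symm))
    have h5 := (mul_eq_zero.1 h2.symm).resolve_left h4
    rw [hz] at h5
    have h6 := h5 x hx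
    rw [← h6, MvPolynomial.eval₂_sum]
    refine Finset.sum_congr rfl fun l _ => ?_
    rw [MvPolynomial.eval₂_mul, MvPolynomial.eval₂_C, ← hlm l x hx, hphπ]
    rfl
  · -- lifting
    obtain ⟨k, r, c, Φ, -, hdet, hΦ⟩ := Pool.Agent.Y890.SP.exists_geninv_minor (Matrix.of MA)
    set D₂ := ((Matrix.of MA).submatrix r c).det with hD₂
    obtain ⟨q₂, hq₂, hq₂'⟩ := hden D₂ hdet
    refine ⟨q₂, hq₂, fun t htU hqt P hP => ?_⟩
    have hφ : ph t htU D₂ ≠ 0 := fun h0 => hqt (hq₂' t htU h0)
    let κ : ℂ →+* AA := π.comp MvPolynomial.C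
    have hκ : ∀ x (hx : x ∈ U) z, ph x hx (κ z) = z := by
      intro x hx z
      change ph x hx (π (MvPolynomial.C z)) = z
      rw [hphπ, MvPolynomial.eval_C]
    let w : Λ → AA := fun l => κ (P l)
    let GA : Λ → AA := fun l => κ (ph t htU D₂)⁻¹ * (D₂ * w l - (Φ.mulVec ((Matrix.of MA).mulVec w)) l)
    have hMw : ∀ ν, ph t htU ((Matrix.of MA).mulVec w ν) = 0 := by
      intro ν
      rw [Matrix.mulVec, dotProduct, map_sum, ← hP ν]
      refine Finset.sum_congr rfl fun l _ => ?_
      rw [map_mul, hκ, hMev ν l t htU]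
      rfl
    have hMG : ∀ ν, ∑ l, MA ν l * GA l = 0 := by
      intro ν
      have h1 : ∑ l, MA ν l * GA l = κ (ph t htU D₂)⁻¹ *
          (D₂ * (Matrix.of MA).mulVec w ν - (Matrix.of MA).mulVec (Φ.mulVec ((Matrix.of MA).mulVec w)) ν) := by
        simp only [Matrix.mulVec, dotProduct, Matrix.of_apply, GA, Finset.mul_sum, mul_sub, Finset.sum_sub_distrib]
        congr 1
        · exact Finset.sum_congr rfl fun l _ => by ring
        · exact Finset.sum_congr rfl fun l _ => Finset.sum_congr rfl fun ν' _ => Finset.sum_congr rfl fun l' _ => by ring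
      rw [h1, Matrix.mulVec_mulVec, Matrix.mulVec_mulVec, hΦ, Matrix.smul_mulVec, Pi.smul_apply,
        smul_eq_mul, sub_self, mul_zero]
    choose G hG using fun l => hπ (GA l)
    refine ⟨G, fun l => ?_, fun ν x hx => ?_⟩
    · have h1 : MvPolynomial.eval (pt y t) (G l) = ph t htU (GA l) := by
        rw [← hG, hphπ]
        rfl
      have h2 : ph t htU ((Φ.mulVec ((Matrix.of MA).mulVec w)) l) = 0 := by
        rw [Matrix.mulVec, dotProduct, map_sum]
        refine Finset.sum_eq_zero fun ν _ => ?_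
        rw [map_mul, hMw, mul_zero]
      rw [h1]
      simp only [GA, map_mul, map_sub, h2, hκ, w, sub_zero]
      field_simp
    · have h1 := congrArg (ph x hx) (hMG ν)
      rw [map_sum, map_zero] at h1
      rw [← h1]
      refine Finset.sum_congr rfl fun l _ => ?_
      rw [map_mul, hMev ν l x hx, ← hG, hphπ]
      rfl
  · intro h _ _ m A ε hε
    set 𝒢₀ := resG d.m e hh with h𝒢₀
    obtain ⟨𝒢, h𝒢⟩ := MvPolynomial.map_surjective (σ := d.I) (MvPolynomial.map (σ := Λ) π)
      (MvPolynomial.map_surjective π hπ) 𝒢₀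
    set J : ℕ := ∑ α ∈ 𝒢.support, ∑ ν ∈ (𝒢.coeff α).support, ((𝒢.coeff α).coeff ν).totalDegree with hJ
    have hJ' : ∀ α ν, ((𝒢.coeff α).coeff ν).totalDegree ≤ J := by
      intro α ν
      by_cases hα : α ∈ 𝒢.support
      · by_cases hν : ν ∈ (𝒢.coeff α).support
        · have h1 := Finset.single_le_sum (f := fun ν => ((𝒢.coeff α).coeff ν).totalDegree)
            (fun _ _ => Nat.zero_le _) hν
          exact h1.trans (Finset.single_le_sum
            (f := fun α => ∑ ν ∈ (𝒢.coeff α).support, ((𝒢.coeff α).coeff ν).totalDegree) (fun _ _ => Nat.zero_le _) hα)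
        · rw [MvPolynomial.notMem_support_iff.1 hν]
          simp
      · rw [MvPolynomial.notMem_support_iff.1 hα]
        simp
    set dd := 𝒢.totalDegree with hdd
    set G' : ℕ := J + ∑ α ∈ 𝒢.support, (𝒢.coeff α).totalDegree with hG'
    have hG'' : ∀ (ξ : h → ℂ) α, (hmgM ξ J (𝒢.coeff α)).totalDegree ≤ G' := by
      intro ξ α
      refine (hmgM_degree ξ J _ (hJ' α)).trans ?_
      refine Nat.add_le_add_left ?_ J
      by_cases hα : α ∈ 𝒢.support
      · exact Finset.single_le_sum (f := fun α => (𝒢.coeff α).totalDegree) (fun _ _ => Nat.zero_le _) hα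
      · rw [MvPolynomial.notMem_support_iff.1 hα]
        simp
    let X' := Y ⊕ X
    let W := Option X' ⊕ (Λ × h)
    let h' := (d.I → Fin (dd + 1)) × (W → Fin (G' + 1))
    set q : ℕ := Fintype.card X' with hq
    set A₂ : ℝ := max A 1 with hA₂
    have hA₂1 : 1 ≤ A₂ := le_max_right _ _
    set A₁ := max A (A₂ * (q : ℝ)) with hA₁
    set A' : ℝ := A₁ * (Fintype.card W * G' : ℕ) with hA'
    obtain ⟨DD, B, C, T₀, hC, hT₀, H⟩ := nfM hZ0 hCl hCh m (fun (i : d.I) t => f (d.ι i) t) Lc hLc
      (fun i t ht => hf _ t (hLU ht)) (fun t ht => hlocind d.I d.ι d.ind t (hLU ht)) h' dd A' ε hε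
    refine ⟨max DD q₁.totalDegree, C + 1, T₀, by positivity, hT₀, ?_⟩
    intro K _ _ hm io ξ T hT
    have hT1 : 1 ≤ T := by linarith
    have hTp : 0 < T := by linarith
    let ξ' : h' → ℂ := fun p => (hmgM ξ J (𝒢.coeff (ex p.1))).coeff (ex p.2)
    have hcov := H K hm io ξ' T hT
    set E := {t : X → ℂ | t ∈ Lc ∧ ∃ s : X → K,
        (∀ i, Y120.HtLe K T (s i)) ∧ (t = fun i => io (s i)) ∧
          RelK K io ξ' (fun l : d.I → Fin (dd + 1) => ∏ i, f (d.ι i) t ^ (l i : ℕ)) (T ^ A') (T ^ (-B))} with hE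
    set Z : Set (X → ℂ) := {t | MvPolynomial.eval t q₁ = 0} with hZ
    have hZcov : Cov q₁.totalDegree 1 Z := by
      refine ⟨{q₁}, by simp, ?_, ?_⟩
      · intro P hP
        rw [Finset.mem_singleton] at hP
        subst hP
        exact ⟨hq₁, le_rfl⟩
      · intro t ht
        exact ⟨q₁, Finset.mem_singleton_self _, ht⟩
    have hsub : (fun (s : X → K) i => io (s i)) '' BadY δ M y f Lc K io ξ A T ⊆ E ∪ Z := by
      rintro _ ⟨s, ⟨hs1, hs2, ⟨z, hz1, hz2⟩, c, hc1, hc2, ν, hν⟩, rfl⟩
      set t : X → ℂ := fun i => io (s i) with ht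
      by_cases hsZ : t ∈ Z
      · exact Or.inr hsZ
      refine Or.inl ⟨hs2, s, hs1, rfl, ?_⟩
      have htU : t ∈ U := hLU hs2
      let s' : X' → K := Sum.elim z s
      set TT : ℝ := T ^ A₂ with hTT
      have hTTp : 0 < TT := Real.rpow_pos_of_pos hTp _
      have hTT1 : T ≤ TT := by
        conv_lhs => rw [← Real.rpow_one T]
        exact Real.rpow_le_rpow_of_exponent_le hT1 hA₂1
      have hTT2 : T ^ A ≤ TT := Real.rpow_le_rpow_of_exponent_le hT1 (le_max_left _ _)
      have hmono : ∀ (R : ℝ) (x : K), R ≤ TT → Y120.HtLe K R x → Y120.HtLe K TT x := by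
        rintro R x hR ⟨a, b, h1, h2, h3, h4⟩
        exact ⟨a, b, h1, h2.trans hR, h3.trans hR, h4⟩
      have hs1' : ∀ i, Y120.HtLe K TT (s' i) := by
        rintro (j | i)
        · exact hmono _ _ hTT2 (hz1 j)
        · exact hmono _ _ hTT1 (hs1 i)
      have hs' : ∀ i, pt y t i = io (s' i) := by
        rintro (j | i)
        · exact hz2 j
        · rfl
      choose a b hb ha1 hb1 hab using id hs1'
      set φ : AA →+* ℂ := ph t htU with hφ
      set P : Λ → ℂ := fun l => ∑ i, ξ i * io (c l i : K) with hP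
      have hφD : φ D₁ ≠ 0 := fun h0 => hsZ (hq₁' t htU h0)
      have hφπ : φ.comp π = MvPolynomial.eval (pt y t) := RingHom.ext fun p => hphπ t htU p
      set 𝓡 : MvPolynomial d.I ℂ := resP (d.m.map (MvPolynomial.map φ)) e (fun l => (hh l).map (MvPolynomial.map φ)) P
        with h𝓡
      have h𝓡G₀ : 𝓡 = MvPolynomial.map (MvPolynomial.eval₂Hom φ P) 𝒢₀ := resG_map d.m e hh φ P
      have h𝓡G : 𝓡 = MvPolynomial.map (MvPolynomial.eval₂Hom (MvPolynomial.eval (pt y t)) P) 𝒢 := by
        have hcomp : (MvPolynomial.eval₂Hom φ P).comp (MvPolynomial.map π) =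
            MvPolynomial.eval₂Hom (MvPolynomial.eval (pt y t)) P := by
          refine MvPolynomial.ringHom_ext ?_ ?_
          · intro r
            rw [RingHom.comp_apply, MvPolynomial.map_C, MvPolynomial.eval₂Hom_C, MvPolynomial.eval₂Hom_C, ← hφπ]
            rfl
          · intro i
            rw [RingHom.comp_apply, MvPolynomial.map_X, MvPolynomial.eval₂Hom_X', MvPolynomial.eval₂Hom_X']
        rw [h𝓡G₀, ← h𝒢, MvPolynomial.map_map, hcomp]
      -- the resultant is not zero
      have h𝓡0 : 𝓡 ≠ 0 := by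
        intro h0
        have hmd : (d.m.map (MvPolynomial.map (σ := d.I) φ)).natDegree = e := d.monic.natDegree_map _
        have hmd' : (d.m.map (MvPolynomial.map (σ := d.I) φ)).degree = d.m.degree := d.monic.degree_map _
        have hRd : (relPoly (fun l => (hh l).map (MvPolynomial.map (σ := d.I) φ)) P).degree < d.m.degree := by
          apply relPoly_degree _ _ _ (bot_lt_iff_ne_bot.2 (by rw [Ne, degree_eq_bot]; exact d.monic.ne_zero))
          intro l
          exact lt_of_le_of_lt degree_map_le (hh' l).1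
        have h1 := eq_zero_of_resultant (d.m.map (MvPolynomial.map (σ := d.I) φ))
          (relPoly (fun l => (hh l).map (MvPolynomial.map (σ := d.I) φ)) P) (d.monic.map _) (hirr ℂ φ hφD)
          (by rw [hmd']; exact hRd) e (by
            apply natDegree_le_of_degree_le
            rw [degree_eq_natDegree d.monic.ne_zero] at hRd
            exact hRd.le) (by rw [hmd]; exact h0)
        apply hν
        have h2 := congrArg (fun q => (Polynomial.coeff q (ν.1 : ℕ)).coeff (ex ν.2)) h1
        simp only [relPoly_coeff, coeff_zero, MvPolynomial.coeff_zero, coeff_map, MvPolynomial.coeff_map] at h2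
        rw [← h2]
        refine Finset.sum_congr rfl fun l _ => ?_
        rw [hMev ν l t htU]
        exact mul_comm _ _
      -- the value is zero
      have h𝓡v : MvPolynomial.eval (fun i => f (d.ι i) t) 𝓡 = 0 := by
        refine res_eval d lm D hh hh' φ (fun i => f i t) ?_ P ?_
        · intro p hp
          exact (hz p).1 hp t htU
        · rw [← hc2]
          refine Finset.sum_congr rfl fun l _ => ?_
          rw [← hlm l t htU]
      -- the integral coordinates
      let bb : 𝓞 K := ∏ i, b i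
      let aa : X' → 𝓞 K := fun i => a i * ∏ j ∈ Finset.univ.erase i, b j
      let zK : W → 𝓞 K := Sum.elim (fun o => o.elim bb aa) (fun p => c p.1 p.2)
      let w : W → ℂ := fun t => io (zK t : K)
      have hwb : w (Sum.inl none) = io (bb : K) := rfl
      have hwa : ∀ i, w (Sum.inl (some i)) = io (aa i : K) := fun i => rfl
      have hbb : bb ≠ 0 := Finset.prod_ne_zero_iff.2 fun i _ => hb i
      have hb0 : io (bb : K) ≠ 0 := by
        rw [Ne, map_eq_zero]
        exact_mod_cast hbb
      have hsw : ∀ i, pt y t i = w (Sum.inl (some i)) / w (Sum.inl none) := by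
        intro i
        rw [hwa, hwb, hs']
        rw [eq_div_iff hb0, ← map_mul]
        congr 1
        have h1 : (bb : K) = (b i : K) * ∏ j ∈ Finset.univ.erase i, (b j : K) := by
          have h2 : bb = b i * ∏ j ∈ Finset.univ.erase i, b j := (Finset.mul_prod_erase _ _ (Finset.mem_univ i)).symm
          rw [h2]
          simp
        have h3 : (aa i : K) = (a i : K) * ∏ j ∈ Finset.univ.erase i, (b j : K) := by
          have h5 := map_mul (algebraMap (𝓞 K) K) (a i) (∏ j ∈ Finset.univ.erase i, b j)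
          rw [map_prod] at h5
          exact h5
        have h4 : (b i : K) ≠ 0 := by exact_mod_cast hb i
        rw [h1, h3, hab i]
        field_simp
      have hval : ∀ α : d.I →₀ ℕ, io (bb : K) ^ J * 𝓡.coeff α = MvPolynomial.eval w (hmgM ξ J (𝒢.coeff α)) := by
        intro α
        rw [hmgM_eval ξ J _ (fun ν => hJ' α ν) w (by rw [hwb]; exact hb0), hwb, h𝓡G, MvPolynomial.coeff_map]
        congr 1
        have h1 : (fun i => w (Sum.inl (some i)) / io (bb : K)) = pt y t := by
          funext i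
          rw [hsw i, hwb]
        rw [h1]
        rfl
      let P' : MvPolynomial d.I ℂ := MvPolynomial.C (io (bb : K) ^ J) * 𝓡
      have hcoef : ∀ s₁ : d.I →₀ ℕ, P'.coeff s₁ = io (bb : K) ^ J * 𝓡.coeff s₁ := by
        intro s₁
        rw [MvPolynomial.coeff_C_mul]
      have hzKb : ∀ (o : W) (ψ : K →+* ℂ), ‖ψ (zK o : K)‖ ≤ T ^ A₁ := by
        have hTq : TT ^ q ≤ T ^ A₁ := by
          rw [hTT, ← Real.rpow_natCast, ← Real.rpow_mul hTp.le]
          exact Real.rpow_le_rpow_of_exponent_le hT1 (le_max_right _ _)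
        have hbn : ∀ i (ψ : K →+* ℂ), ‖ψ (b i : K)‖ ≤ TT := fun i ψ => (Y120.house_ge K _ ψ).trans (hb1 i)
        have han : ∀ i (ψ : K →+* ℂ), ‖ψ (a i : K)‖ ≤ TT := fun i ψ => (Y120.house_ge K _ ψ).trans (ha1 i)
        rintro ((_ | i) | ⟨l, i⟩) ψ
        · refine le_trans ?_ hTq
          change ‖ψ ((bb : 𝓞 K) : K)‖ ≤ TT ^ q
          have h1 : ψ ((bb : 𝓞 K) : K) = ∏ i, ψ (b i : K) := by simp [bb, map_prod]
          rw [h1, norm_prod]
          calc ∏ i, ‖ψ (b i : K)‖ ≤ ∏ _i : X', TT := Finset.prod_le_prod (fun _ _ => norm_nonneg _) fun i _ => hbn i ψ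
            _ = TT ^ q := by rw [Finset.prod_const, Finset.card_univ]
        · refine le_trans ?_ hTq
          change ‖ψ ((aa i : 𝓞 K) : K)‖ ≤ TT ^ q
          have h1 : ψ ((aa i : 𝓞 K) : K) = ψ (a i : K) * ∏ j ∈ Finset.univ.erase i, ψ (b j : K) := by
            simp [aa, map_prod]
          rw [h1, norm_mul, norm_prod]
          calc ‖ψ (a i : K)‖ * ∏ j ∈ Finset.univ.erase i, ‖ψ (b j : K)‖
              ≤ TT * ∏ _j ∈ Finset.univ.erase i, TT :=
                mul_le_mul (han i ψ) (Finset.prod_le_prod (fun _ _ => norm_nonneg _) fun j _ => hbn j ψ)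
                  (Finset.prod_nonneg fun _ _ => norm_nonneg _) hTTp.le
            _ = ∏ _j : X', TT := Finset.mul_prod_erase Finset.univ (fun _ : X' => TT) (Finset.mem_univ i)
            _ = TT ^ q := by rw [Finset.prod_const, Finset.card_univ]
        · exact (hc1 l i ψ).trans (Real.rpow_le_rpow_of_exponent_le hT1 (le_max_left _ _))
      have hP'0 : P' ≠ 0 := by
        refine mul_ne_zero ?_ h𝓡0
        rw [Ne, MvPolynomial.C_eq_zero]
        exact pow_ne_zero _ hb0
      obtain ⟨s₀, hs₀⟩ := MvPolynomial.ne_zero_iff.1 hP'0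
      refine relK_of_poly1 K io ξ' (fun i => f (d.ι i) t) (T ^ A') (T ^ (-B)) P' ?_ ?_ s₀ hs₀ ?_
      · intro x
        refine (MvPolynomial.degreeOf_le_totalDegree _ _).trans ?_
        refine (MvPolynomial.totalDegree_mul _ _).trans ?_
        rw [MvPolynomial.totalDegree_C, zero_add, h𝓡G, hdd]
        exact Finset.sup_mono (MvPolynomial.support_map_subset _ _)
      · intro α₀
        by_cases hα : ∃ α : d.I → Fin (dd + 1), ex α = α₀
        · obtain ⟨α, hα⟩ := hα
          refine ⟨fun p => if p.1 = α then ∏ t, zK t ^ (p.2 t : ℕ) else 0, ?_, ?_⟩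
          · rintro ⟨α', γ⟩ ψ
            by_cases hαα : α' = α
            · simp only [hαα, if_true]
              have hT' : 1 ≤ T ^ A₁ := Real.one_le_rpow hT1 (by
                rw [hA₁]
                exact le_trans (mul_nonneg (by linarith) (Nat.cast_nonneg _)) (le_max_right _ _))
              have h1 := norm_prod_le G' γ (fun t => ψ (zK t : K)) (T ^ A₁) hT' (fun o => hzKb o ψ)
              have h3 : ψ ((∏ t, zK t ^ (γ t : ℕ) : 𝓞 K) : K) = ∏ t, ψ (zK t : K) ^ (γ t : ℕ) := by
                simp [map_prod]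
              rw [h3]
              refine h1.trans (le_of_eq ?_)
              rw [hA', Real.rpow_mul (by linarith), Real.rpow_natCast]
            · simp only [hαα, if_false]
              simp
              positivity
          · rw [hcoef, ← hα, hval, eval_box _ G' (hG'' ξ _) w, Fintype.sum_prod_type, Finset.sum_eq_single α]
            · refine Finset.sum_congr rfl fun γ _ => ?_
              have h3 : io ((∏ t, zK t ^ (γ t : ℕ) : 𝓞 K) : K) = ∏ t, io (zK t : K) ^ (γ t : ℕ) := by
                simp [map_prod]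
              simp only [if_true, ξ']
              congr 1
              exact h3.symm
            · intro α' _ hα'
              refine Finset.sum_eq_zero fun γ _ => ?_
              simp [hα']
            · simp
        · refine ⟨fun _ => 0, ?_, ?_⟩
          · intro _ ψ
            simp
            positivity
          · have h1 : 𝒢.coeff α₀ = 0 := by
              have h2 := box_of_le 𝒢 (le_refl dd)
              rw [← h2, box, MvPolynomial.coeff_sum]
              refine Finset.sum_eq_zero fun α _ => ?_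
              rw [MvPolynomial.coeff_monomial, if_neg fun hh => hα ⟨α, hh⟩]
            rw [hcoef, h𝓡G, MvPolynomial.coeff_map, h1]
            simp
      · have h1 : MvPolynomial.aeval (fun i : d.I => f (d.ι i) t) P' = 0 := by
          rw [map_mul]
          have h2 : MvPolynomial.aeval (fun i : d.I => f (d.ι i) t) 𝓡 =
              MvPolynomial.eval (fun i => f (d.ι i) t) 𝓡 := by
            rfl
          rw [h2, h𝓡v, mul_zero]
        rw [h1, norm_zero]
        positivity
    -- covering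
    have h1 := (hcov.mono (le_max_left DD q₁.totalDegree) le_rfl (Set.Subset.refl _)).union
      (hZcov.mono (le_max_right DD q₁.totalDegree) le_rfl (Set.Subset.refl _))
    refine h1.mono le_rfl ?_ hsub
    have h6 : (1 : ℝ) ≤ T ^ ε := Real.one_le_rpow hT1 hε.le
    have h7 : 0 ≤ C * T ^ ε := by positivity
    rw [← Nat.floor_add_one h7]
    apply Nat.floor_le_floor
    nlinarith

end Pool.Agent.X255.GB
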